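import Pool.Agent.L5helper73.SM.MV

/-!
# Lipschitz maps with invertible generalized differentials are cone monotone
-/

set_option autoImplicit false

open Set Filter Topology Metric MeasureTheory
open scoped NNReal

namespace Pool.Agent.L5helper73.SM

section

variable {V : Type} [NormedAddCommGroup V] [NormedSpace ℝ V] [FiniteDimensional ℝ V]
  [MeasurableSpace V] [BorelSpace V] (μ : Measure V) [μ.IsAddHaarMeasure]

/-- mean value inequality -/
theorem mv {C : ℝ≥0} {φ : V → ℝ} (hφ : LipschitzWith C φ) {ρ : ℝ} {v : V} {c t : ℝ} (ht : 0 ≤ t)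
    (hc : ∀ᵐ z ∂μ, z ∈ ball (0 : V) ρ → c ≤ lineDeriv ℝ φ z v) {p : V}
    (hp : p ∈ ball (0 : V) ρ) (hq : p + t • v ∈ ball (0 : V) ρ) :
    c * t ≤ φ (p + t • v) - φ p := by
  rw [mem_ball_zero_iff] at hp hq
  set ε₀ : ℝ := ρ - max ‖p‖ ‖p + t • v‖ with hε₀
  have hε₀p : 0 < ε₀ := sub_pos.2 (max_lt hp hq)
  -- the tube around the segment
  have htube : ∀ τ ∈ Ico 0 t, ∀ x ∈ ball p ε₀, x + τ • v ∈ ball (0 : V) ρ := by
    intro τ hτ x hx
    have ht0 : 0 < t := lt_of_le_of_lt hτ.1 hτ.2
    have h1 : ‖p + τ • v‖ ≤ max ‖p‖ ‖p + t • v‖ := by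
      have h2 : p + τ • v = (1 - τ / t) • p + (τ / t) • (p + t • v) := by
        rw [smul_add, smul_smul, div_mul_cancel₀ _ ht0.ne', ← add_assoc, ← add_smul,
          sub_add_cancel, one_smul]
      have h3 : 0 ≤ τ / t := div_nonneg hτ.1 ht
      have h4 : 0 ≤ 1 - τ / t := sub_nonneg.2 ((div_le_one ht0).2 hτ.2.le)
      rw [h2]
      calc ‖(1 - τ / t) • p + (τ / t) • (p + t • v)‖
          ≤ ‖(1 - τ / t) • p‖ + ‖(τ / t) • (p + t • v)‖ := norm_add_le _ _
        _ = (1 - τ / t) * ‖p‖ + (τ / t) * ‖p + t • v‖ := by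
          rw [norm_smul, norm_smul, Real.norm_of_nonneg h3, Real.norm_of_nonneg h4]
        _ ≤ (1 - τ / t) * max ‖p‖ ‖p + t • v‖ + (τ / t) * max ‖p‖ ‖p + t • v‖ := by
          gcongr
          · exact le_max_left _ _
          · exact le_max_right _ _
        _ = max ‖p‖ ‖p + t • v‖ := by ring
    rw [mem_ball_zero_iff]
    rw [mem_ball, dist_eq_norm] at hx
    have h5 : x + τ • v = (x - p) + (p + τ • v) := by abel
    rw [h5]
    have h6 := norm_add_le (x - p) (p + τ • v)
    have h7 : ‖x - p‖ < ρ - max ‖p‖ ‖p + t • v‖ := hx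
    linarith
  refine le_of_forall_pos_le_add fun δ hδ => ?_
  -- a small ball
  obtain ⟨ε, hε, hεε₀, hεδ⟩ : ∃ ε : ℝ, 0 < ε ∧ ε ≤ ε₀ ∧ 2 * C * ε ≤ δ := by
    refine ⟨min ε₀ (δ / (2 * C + 1)), lt_min hε₀p (by positivity), min_le_left _ _, ?_⟩
    have h1 : min ε₀ (δ / (2 * C + 1)) ≤ δ / (2 * C + 1) := min_le_right _ _
    calc 2 * C * min ε₀ (δ / (2 * C + 1)) ≤ 2 * C * (δ / (2 * C + 1)) := by gcongr
      _ ≤ (2 * C + 1) * (δ / (2 * C + 1)) := by
        have : 0 ≤ δ / (2 * C + 1) := by positivity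
        nlinarith
      _ = δ := by field_simp
  have hpos : 0 < μ (ball p ε) := measure_ball_pos μ p hε
  have hfin : μ (ball p ε) ≠ ⊤ := measure_ball_lt_top.ne
  have hreal : 0 < μ.real (ball p ε) := ENNReal.toReal_pos hpos.ne' hfin
  have h1 := mv_int μ hφ (S := ball p ε) measurableSet_ball hfin (v := v) (c := c) ht (by
    intro τ hτ
    have h2 := (measurePreserving_add_right μ (τ • v)).quasiMeasurePreserving.ae hc
    filter_upwards [h2] with x hx hxS
    exact hx (htube τ hτ x (ball_subset_ball hεε₀ hxS)))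
  have h2 : ∫ x in ball p ε, (φ (x + t • v) - φ x) ∂μ ≤
      (φ (p + t • v) - φ p + 2 * C * ε) * μ.real (ball p ε) := by
    have h3 : ∫ x in ball p ε, (φ (p + t • v) - φ p + 2 * C * ε) ∂μ =
        (φ (p + t • v) - φ p + 2 * C * ε) * μ.real (ball p ε) := by
      rw [setIntegral_const, smul_eq_mul, mul_comm]
    rw [← h3]
    refine setIntegral_mono_on ?_ (integrableOn_const (by exact hfin)) measurableSet_ball ?_
    · refine Measure.integrableOn_of_bounded (M := C * ‖t • v‖) hfin ?_ ?_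
      · exact ((hφ.continuous.comp (continuous_id.add continuous_const)).sub
          hφ.continuous).aestronglyMeasurable
      · refine Eventually.of_forall fun x => ?_
        have := hφ.dist_le_mul (x + t • v) x
        rw [dist_eq_norm, dist_eq_norm, add_sub_cancel_left] at this
        exact this
    · intro x hx
      rw [mem_ball] at hx
      have h4 := hφ.dist_le_mul (x + t • v) (p + t • v)
      have h5 := hφ.dist_le_mul x p
      rw [dist_add_right, Real.dist_eq] at h4
      rw [Real.dist_eq] at h5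
      have h6 : (C : ℝ) * dist x p ≤ C * ε := by gcongr
      have h7 := (abs_le.1 (h4.trans h6)).2
      have h8 := (abs_le.1 (h5.trans h6)).1
      linarith
  have h3 : c * t ≤ φ (p + t • v) - φ p + 2 * C * ε := by
    by_contra h
    push Not at h
    have := mul_lt_mul_of_pos_right h hreal
    linarith
  linarith

end

variable {V : Type} [NormedAddCommGroup V] [NormedSpace ℝ V]

/-- The convex hull of a compact set is compact (as in `Pool.Agent.H212AN`). -/
theorem hull_compact {E : Type} [NormedAddCommGroup E] [NormedSpace ℝ E]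
    [FiniteDimensional ℝ E] {s : Set E} (hs : IsCompact s) : IsCompact (convexHull ℝ s) := by
  classical
  rcases s.eq_empty_or_nonempty with rfl | ⟨x0, hx0⟩
  · rw [convexHull_empty]
    exact isCompact_empty
  obtain ⟨n, hn⟩ : ∃ n, n = Module.finrank ℝ E + 1 := ⟨_, rfl⟩
  have hK : IsCompact ((stdSimplex ℝ (Fin n)) ×ˢ (Set.pi Set.univ (fun _ : Fin n => s))) :=
    (isCompact_stdSimplex ℝ (Fin n)).prod (isCompact_univ_pi fun _ => hs)
  have hcont : Continuous (fun p : (Fin n → ℝ) × (Fin n → E) => ∑ i, p.1 i • p.2 i) := by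
    refine continuous_finsetSum _ fun i _ => ?_
    exact ((continuous_apply i).comp continuous_fst).smul ((continuous_apply i).comp continuous_snd)
  have heq : convexHull ℝ s = (fun p : (Fin n → ℝ) × (Fin n → E) => ∑ i, p.1 i • p.2 i) ''
      ((stdSimplex ℝ (Fin n)) ×ˢ (Set.pi Set.univ (fun _ : Fin n => s))) := by
    apply Set.Subset.antisymm
    · intro x hx
      obtain ⟨ι, hι, z, w, hz, hai, hw0, hw1, hwz⟩ := eq_pos_convex_span_of_mem_convexHull hx
      have hcard : Fintype.card ι ≤ Fintype.card (Fin n) := by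
        have h1 := hai.card_le_finrank_succ
        have h2 := Submodule.finrank_le (vectorSpan ℝ (Set.range z))
        rw [Fintype.card_fin, hn]
        omega
      obtain ⟨e⟩ := Function.Embedding.nonempty_of_card_le hcard
      refine ⟨(Function.extend e w 0, Function.extend e z (fun _ => x0)), ⟨⟨?_, ?_⟩, ?_⟩, ?_⟩
      · intro j
        show (0 : ℝ) ≤ Function.extend e w 0 j
        by_cases hj : ∃ i, e i = j
        · obtain ⟨i, rfl⟩ := hj
          rw [e.injective.extend_apply]
          exact (hw0 i).le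
        · rw [Function.extend_apply' _ _ _ hj]
          exact le_rfl
      · rw [← hw1]
        symm
        refine Fintype.sum_of_injective e e.injective _ _ ?_ ?_
        · intro j hj
          show Function.extend e w 0 j = 0
          rw [Function.extend_apply' _ _ _ hj]
          rfl
        · intro i
          show w i = Function.extend e w 0 (e i)
          rw [e.injective.extend_apply]
      · intro j _
        by_cases hj : ∃ i, e i = j
        · obtain ⟨i, rfl⟩ := hj
          show Function.extend e z (fun _ => x0) (e i) ∈ s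
          rw [e.injective.extend_apply]
          exact hz ⟨i, rfl⟩
        · show Function.extend e z (fun _ => x0) j ∈ s
          rw [Function.extend_apply' _ _ _ hj]
          exact hx0
      · rw [← hwz]
        symm
        refine Fintype.sum_of_injective e e.injective _ _ ?_ ?_
        · intro j hj
          show Function.extend e w 0 j • Function.extend e z (fun _ => x0) j = 0
          rw [Function.extend_apply' w _ _ hj]
          simp
        · intro i
          show w i • z i = Function.extend e w 0 (e i) • Function.extend e z (fun _ => x0) (e i)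
          rw [e.injective.extend_apply, e.injective.extend_apply]
    · rintro _ ⟨⟨w, z⟩, ⟨⟨hw0, hw1⟩, hz⟩, rfl⟩
      refine (convex_convexHull ℝ s).sum_mem (fun i _ => hw0 i) hw1 (fun i _ => ?_)
      exact subset_convexHull ℝ s (hz i (Set.mem_univ i))
  rw [heq]
  exact hK.image hcont

/-- the limits of the derivatives of `h` at points which tend to `0` -/
def LimDer (h : V → V) : Set (V →L[ℝ] V) :=
  {T | ∀ ε > 0, ∃ z, ‖z‖ < ε ∧ DifferentiableAt ℝ h z ∧ ‖fderiv ℝ h z - T‖ < ε}

variable [FiniteDimensional ℝ V]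

theorem limDer_compact {h : V → V} {r : ℝ} {L : ℝ≥0} (hr : 0 < r)
    (hL : LipschitzOnWith L h (ball 0 r)) : IsCompact (LimDer h) := by
  have : ProperSpace (V →L[ℝ] V) := FiniteDimensional.proper_real _
  refine (isCompact_closedBall (0 : V →L[ℝ] V) L).of_isClosed_subset ?_ ?_
  · rw [← isSeqClosed_iff_isClosed]
    intro T T' hT hTT' ε hε
    obtain ⟨k, hk⟩ := (Metric.tendsto_atTop.1 hTT' (ε / 2) (by linarith))
    obtain ⟨z, h1, h2, h3⟩ := hT k (ε / 2) (by linarith)
    refine ⟨z, by linarith, h2, ?_⟩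
    have h4 := hk k le_rfl
    rw [dist_eq_norm] at h4
    calc ‖fderiv ℝ h z - T'‖ = ‖(fderiv ℝ h z - T k) + (T k - T')‖ := by rw [sub_add_sub_cancel]
      _ ≤ ‖fderiv ℝ h z - T k‖ + ‖T k - T'‖ := norm_add_le _ _
      _ < ε := by linarith
  · intro T hT
    rw [mem_closedBall_zero_iff]
    refine le_of_forall_pos_le_add fun ε hε => ?_
    obtain ⟨z, h1, h2, h3⟩ := hT (min ε r) (lt_min hε hr)
    have h4 : ‖fderiv ℝ h z‖ ≤ L := norm_fderiv_le_of_lipschitzOn ℝ
      (isOpen_ball.mem_nhds (mem_ball_zero_iff.2 (h1.trans_le (min_le_right _ _)))) hL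
    have h5 := norm_sub_norm_le T (fderiv ℝ h z)
    rw [norm_sub_rev] at h5
    have h6 := h3.trans_le (min_le_left ε r)
    linarith

/-- a functional which is positive on the derivatives in a given direction -/
theorem exists_fun {h : V → V} {r : ℝ} {L : ℝ≥0} (hr : 0 < r)
    (hL : LipschitzOnWith L h (ball 0 r))
    (hreg : ∀ T ∈ convexHull ℝ (LimDer h), Function.Injective T) {v : V} (hv : v ≠ 0) :
    ∃ (l : V →L[ℝ] ℝ) (u r' : ℝ), 0 < u ∧ 0 < r' ∧ r' ≤ r ∧
      ∀ z, ‖z‖ < r' → DifferentiableAt ℝ h z → u ≤ l (fderiv ℝ h z v) := by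
  have : ProperSpace (V →L[ℝ] V) := FiniteDimensional.proper_real _
  have hcomp := (limDer_compact hr hL)
  have hconv : IsCompact (convexHull ℝ (LimDer h)) := hull_compact hcomp
  let ev : (V →L[ℝ] V) →L[ℝ] V := ContinuousLinearMap.apply ℝ V v
  have hev : ∀ T, ev T = T v := fun T => rfl
  have h1 : IsClosed (ev '' convexHull ℝ (LimDer h)) := (hconv.image ev.continuous).isClosed
  have h2 : Convex ℝ (ev '' convexHull ℝ (LimDer h)) := (convex_convexHull ℝ _).linear_image ev.toLinearMap
  have h3 : (0 : V) ∉ ev '' convexHull ℝ (LimDer h) := by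
    rintro ⟨T, hT, hT0⟩
    rw [hev] at hT0
    exact hv (hreg T hT (by rw [hT0, map_zero]))
  obtain ⟨l, u, hu, hl⟩ := geometric_hahn_banach_point_closed h2 h1 h3
  rw [map_zero] at hu
  by_cases hcon : ∃ r', 0 < r' ∧ r' ≤ r ∧ ∀ z, ‖z‖ < r' → DifferentiableAt ℝ h z →
      u / 2 ≤ l (fderiv ℝ h z v)
  · obtain ⟨r', h4, h5, h6⟩ := hcon
    exact ⟨l, u / 2, r', by linarith, h4, h5, h6⟩
  · exfalso
    push Not at hcon
    have h4 : ∀ k : ℕ, ∃ z, ‖z‖ < min r (1 / ((k : ℝ) + 1)) ∧ DifferentiableAt ℝ h z ∧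
        l (fderiv ℝ h z v) < u / 2 := fun k => by
      obtain ⟨z, a, b, c⟩ := hcon (min r (1 / ((k : ℝ) + 1))) (lt_min hr (by positivity))
        (min_le_left _ _)
      exact ⟨z, a, b, c⟩
    choose z hz hzd hzl using h4
    have h5 : ∀ k, fderiv ℝ h (z k) ∈ closedBall (0 : V →L[ℝ] V) L := by
      intro k
      rw [mem_closedBall_zero_iff]
      exact norm_fderiv_le_of_lipschitzOn ℝ
        (isOpen_ball.mem_nhds (mem_ball_zero_iff.2 ((hz k).trans_le (min_le_left _ _)))) hL
    obtain ⟨T, -, σ, hσ, hT⟩ := (isCompact_closedBall (0 : V →L[ℝ] V) L).tendsto_subseq h5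
    have h6 : T ∈ LimDer h := by
      intro ε hε
      obtain ⟨k₁, hk₁⟩ := Metric.tendsto_atTop.1 hT ε hε
      obtain ⟨k₂, hk₂⟩ := exists_nat_one_div_lt hε
      refine ⟨z (σ (max k₁ k₂)), ?_, hzd _, ?_⟩
      · refine (hz _).trans_le ((min_le_right _ _).trans ?_)
        have h7 : (k₂ : ℝ) ≤ (σ (max k₁ k₂) : ℕ) := by
          exact_mod_cast (le_max_right k₁ k₂).trans (hσ.id_le _)
        calc 1 / (((σ (max k₁ k₂) : ℕ) : ℝ) + 1) ≤ 1 / ((k₂ : ℝ) + 1) := by gcongr
          _ ≤ ε := hk₂.le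
      · have := hk₁ (max k₁ k₂) (le_max_left _ _)
        rwa [dist_eq_norm] at this
    have h7 : Tendsto (fun k => l (fderiv ℝ h (z (σ k)) v)) atTop (𝓝 (l (T v))) := by
      have h8 : Continuous fun S : V →L[ℝ] V => l (ev S) := l.continuous.comp ev.continuous
      exact (h8.tendsto T).comp hT
    have h8 : l (T v) ≤ u / 2 := le_of_tendsto h7 (Eventually.of_forall fun k => (hzl _).le)
    have h9 := hl (T v) ⟨T, subset_convexHull ℝ _ h6, rfl⟩
    linarith

/-- **Lipschitz maps with invertible generalized differential are cone monotone.** -/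
theorem cone_of_regular {h : V → V} {r : ℝ} {L : ℝ≥0} (hr : 0 < r)
    (hL : LipschitzOnWith L h (ball 0 r))
    (hreg : ∀ T ∈ convexHull ℝ (LimDer h), Function.Injective T) (v : V) (hv : v ≠ 0) :
    ∃ (r : ℝ) (l : V →L[ℝ] ℝ), 0 < r ∧ ∀ p q : V, ‖p‖ ≤ r → ‖q‖ ≤ r →
      ∀ t : ℝ, 0 < t → ‖q - p - t • v‖ ≤ r * t → r * ‖h q - h p‖ < l (h q - h p) := by
  let : MeasurableSpace V := borel V
  have : BorelSpace V := ⟨rfl⟩
  obtain ⟨l, u, r', hu, hr', hr'r, hl⟩ := exists_fun hr hL hreg hv
  obtain ⟨g, hg, hgh⟩ := hL.extend_finite_dimension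
  set C := lipschitzExtensionConstant V * L with hC
  let μ : Measure V := Measure.addHaar
  have hlg : LipschitzWith (‖l‖₊ * C) fun x => l (g x) := l.lipschitz.comp hg
  -- choose the radius
  set B : ℝ := ‖l‖ * L + C * (‖v‖ + 1) + u + 1 with hB
  have hB0 : 0 < B := by positivity
  set κ : ℝ := min (min (r' / 2) 1) (u / (4 * B)) with hκ
  have hκ0 : 0 < κ := lt_min (lt_min (by linarith) one_pos) (by positivity)
  have hκ1 : κ ≤ r' / 2 := (min_le_left _ _).trans (min_le_left _ _)
  have hκ2 : κ ≤ 1 := (min_le_left _ _).trans (min_le_right _ _)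
  have hκ3 : κ * B ≤ u / 4 := by
    have : κ ≤ u / (4 * B) := min_le_right _ _
    calc κ * B ≤ u / (4 * B) * B := by gcongr
      _ = u / 4 := by field_simp
  refine ⟨κ, l, hκ0, fun p q hp hq t ht hpq => ?_⟩
  set v' : V := t⁻¹ • (q - p) with hv'
  have htv' : t • v' = q - p := by
    rw [hv', smul_smul, mul_inv_cancel₀ ht.ne', one_smul]
  have hvv' : ‖v' - v‖ ≤ κ := by
    have h1 : t • (v' - v) = q - p - t • v := by rw [smul_sub, htv']
    have h2 : t * ‖v' - v‖ ≤ κ * t := by
      rw [← abs_of_pos ht, ← Real.norm_eq_abs, ← norm_smul, h1, Real.norm_eq_abs, abs_of_pos ht]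
      exact hpq
    nlinarith
  have hv'n : ‖v'‖ ≤ ‖v‖ + 1 := by
    have h1 := norm_sub_norm_le v' v
    linarith
  have hpb : p ∈ ball (0 : V) r' := mem_ball_zero_iff.2 (by linarith)
  have hqb : p + t • v' ∈ ball (0 : V) r' := by
    rw [htv', add_sub_cancel]
    exact mem_ball_zero_iff.2 (by linarith)
  have hder : ∀ᵐ z ∂μ, z ∈ ball (0 : V) r' → 3 * u / 4 ≤ lineDeriv ℝ (fun x => l (g x)) z v' := by
    filter_upwards [hg.ae_differentiableAt (μ := μ)] with z hz hzb
    rw [mem_ball_zero_iff] at hzb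
    have hzr : z ∈ ball (0 : V) r := mem_ball_zero_iff.2 (by linarith)
    have h1 : h =ᶠ[𝓝 z] g := by
      filter_upwards [isOpen_ball.mem_nhds hzr] with y hy
      exact hgh hy
    have h2 : DifferentiableAt ℝ h z := hz.congr_of_eventuallyEq h1
    have h3 := hl z hzb h2
    have h4 : lineDeriv ℝ (fun x => l (g x)) z v' = l (fderiv ℝ h z v') := by
      have h5 : HasFDerivAt (fun x => l (g x)) (l.comp (fderiv ℝ g z)) z :=
        l.hasFDerivAt.comp z hz.hasFDerivAt
      rw [h5.differentiableAt.lineDeriv_eq_fderiv, h5.fderiv, h1.fderiv_eq]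
      rfl
    rw [h4]
    have h5 : fderiv ℝ h z v' = fderiv ℝ h z v + fderiv ℝ h z (v' - v) := by
      rw [← map_add, add_sub_cancel]
    rw [h5, map_add]
    have h6 : ‖fderiv ℝ h z‖ ≤ L := norm_fderiv_le_of_lipschitzOn ℝ
      (isOpen_ball.mem_nhds hzr) hL
    have h7 : ‖l (fderiv ℝ h z (v' - v))‖ ≤ ‖l‖ * (L * κ) := by
      refine (l.le_opNorm _).trans ?_
      gcongr
      refine ((fderiv ℝ h z).le_opNorm _).trans ?_
      gcongr
    rw [Real.norm_eq_abs] at h7
    have h8 := (abs_le.1 h7).1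
    have h9 : ‖l‖ * (L * κ) ≤ κ * B := by
      have e1 : 0 ≤ (C : ℝ) * (‖v‖ + 1) := by positivity
      have e2 : ‖l‖ * L ≤ B := by rw [hB]; linarith
      calc ‖l‖ * (L * κ) = κ * (‖l‖ * L) := by ring
        _ ≤ κ * B := by gcongr
    linarith
  have key := mv μ hlg ht.le hder hpb hqb
  rw [htv', add_sub_cancel] at key
  have hpr : p ∈ ball (0 : V) r := ball_subset_ball hr'r hpb
  have hqr : q ∈ ball (0 : V) r := mem_ball_zero_iff.2 (by linarith)
  have e1 : l (g q) - l (g p) = l (h q - h p) := by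
    rw [hgh hpr, hgh hqr, map_sub]
  rw [e1] at key
  refine lt_of_lt_of_le ?_ key
  have h1 : ‖h q - h p‖ ≤ C * (t * (‖v‖ + 1)) := by
    have h2 := hg.dist_le_mul q p
    rw [dist_eq_norm, dist_eq_norm, ← hgh hpr, ← hgh hqr, ← htv', norm_smul, Real.norm_eq_abs,
      abs_of_pos ht] at h2
    refine h2.trans ?_
    gcongr
  have h3 : κ * ‖h q - h p‖ ≤ κ * B * t := by
    calc κ * ‖h q - h p‖ ≤ κ * (C * (t * (‖v‖ + 1))) := by gcongr
      _ = κ * (C * (‖v‖ + 1)) * t := by ring
      _ ≤ κ * B * t := by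
        gcongr
        have : 0 ≤ ‖l‖ * (L : ℝ) := by positivity
        rw [hB]
        linarith
  have h4 : κ * B * t ≤ u / 4 * t := by gcongr
  have h5 : u / 4 * t < 3 * u / 4 * t := by
    have : 0 < u * t := mul_pos hu ht
    nlinarith
  linarith

end Pool.Agent.L5helper73.SM
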