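import Mathlib

/-!
# The mean value theorem for Lipschitz functions, with conditions at almost all points
-/

set_option autoImplicit false

open Set Filter Topology Metric MeasureTheory
open scoped NNReal

namespace Pool.Agent.L5helper73.SM

variable {V : Type} [NormedAddCommGroup V] [NormedSpace ℝ V] [FiniteDimensional ℝ V]
  [MeasurableSpace V] [BorelSpace V] (μ : Measure V) [μ.IsAddHaarMeasure]

/-- integrated version -/
theorem mv_int {C : ℝ≥0} {φ : V → ℝ} (hφ : LipschitzWith C φ) {S : Set V} (hS : MeasurableSet S)
    (hSf : μ S ≠ ⊤) {v : V} {c t : ℝ} (ht : 0 ≤ t)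
    (hc : ∀ τ ∈ Ico 0 t, ∀ᵐ x ∂μ, x ∈ S → c ≤ lineDeriv ℝ φ (x + τ • v) v) :
    c * t * μ.real S ≤ ∫ x in S, (φ (x + t • v) - φ x) ∂μ := by
  have hint : ∀ τ : ℝ, IntegrableOn (fun x => φ (x + τ • v) - φ x) S μ := by
    intro τ
    refine Measure.integrableOn_of_bounded (M := C * ‖τ • v‖) hSf ?_ ?_
    · exact ((hφ.continuous.comp (continuous_id.add continuous_const)).sub
        hφ.continuous).aestronglyMeasurable
    · refine Eventually.of_forall fun x => ?_
      have := hφ.dist_le_mul (x + τ • v) x
      rw [dist_eq_norm, dist_eq_norm, add_sub_cancel_left] at this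
      exact this
  let G : ℝ → ℝ := fun τ => ∫ x in S, (φ (x + τ • v) - φ x) ∂μ
  have hdiff : ∀ τ τ' : ℝ, G τ' - G τ = ∫ x in S, (φ (x + τ' • v) - φ (x + τ • v)) ∂μ := by
    intro τ τ'
    show (∫ x in S, (φ (x + τ' • v) - φ x) ∂μ) - (∫ x in S, (φ (x + τ • v) - φ x) ∂μ) = _
    rw [← integral_sub (hint τ') (hint τ)]
    refine integral_congr_ae (Eventually.of_forall fun x => ?_)
    show φ (x + τ' • v) - φ x - (φ (x + τ • v) - φ x) = _
    ring
  have hGl : ∀ τ τ' : ℝ, |G τ' - G τ| ≤ C * ‖v‖ * μ.real S * |τ' - τ| := by
    intro τ τ'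
    rw [hdiff]
    have h1 : ‖∫ x in S, (φ (x + τ' • v) - φ (x + τ • v)) ∂μ‖ ≤ (C * (|τ' - τ| * ‖v‖)) * μ.real S := by
      refine norm_setIntegral_le_of_norm_le_const (lt_top_iff_ne_top.2 hSf) fun x _ => ?_
      have := hφ.dist_le_mul (x + τ' • v) (x + τ • v)
      rw [dist_eq_norm, dist_eq_norm, add_sub_add_left_eq_sub, ← sub_smul, norm_smul] at this
      exact this
    rw [Real.norm_eq_abs] at h1
    linarith
  have hGc : Continuous G := by
    refine LipschitzWith.continuous (K := ⟨C * ‖v‖ * μ.real S, by positivity⟩) ?_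
    refine LipschitzWith.of_dist_le_mul fun a b => ?_
    rw [Real.dist_eq, Real.dist_eq]
    exact hGl b a
  have key := image_le_of_liminf_slope_right_le_deriv_boundary (f := fun τ => - G τ) (a := 0)
    (b := t) hGc.neg.continuousOn (B := fun τ => - (c * μ.real S) * τ)
    (B' := fun _ => - (c * μ.real S)) (by
      show - G 0 ≤ - (c * μ.real S) * 0
      have : G 0 = 0 := by
        show (∫ x in S, (φ (x + (0 : ℝ) • v) - φ x) ∂μ) = 0
        simp
      rw [this]
      simp) (by fun_prop) (fun x _ => by
      have := (hasDerivWithinAt_id x (Ici x)).const_mul (- (c * μ.real S))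
      rwa [mul_one] at this)
    (by
      intro τ hτ r hr
      refine Eventually.frequently ?_
      -- the limit of the slopes
      have hφτ : LipschitzWith C fun x => φ (x + τ • v) := by
        refine LipschitzWith.of_dist_le_mul fun a b => ?_
        have := hφ.dist_le_mul (a + τ • v) (b + τ • v)
        rwa [dist_add_right] at this
      have hg : Integrable (S.indicator fun _ => (1 : ℝ)) μ :=
        (integrable_indicator_iff hS).2 (integrableOn_const (by exact hSf))
      have h1 := hφτ.integral_inv_smul_sub_mul_tendsto_integral_lineDeriv_mul hg v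
      have h2 : c * μ.real S ≤
          ∫ x, lineDeriv ℝ (fun x => φ (x + τ • v)) x v * S.indicator (fun _ => (1 : ℝ)) x ∂μ := by
        have e1 : (fun x => lineDeriv ℝ (fun x => φ (x + τ • v)) x v *
            S.indicator (fun _ => (1 : ℝ)) x) = S.indicator
              (fun x => lineDeriv ℝ φ (x + τ • v) v) := by
          funext x
          have e2 : lineDeriv ℝ (fun x => φ (x + τ • v)) x v = lineDeriv ℝ φ (x + τ • v) v := by
            unfold lineDeriv
            congr 1
            funext s
            show φ (x + s • v + τ • v) = φ (x + τ • v + s • v)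
            rw [add_right_comm]
          rw [e2]
          by_cases hx : x ∈ S
          · rw [indicator_of_mem hx, indicator_of_mem hx, mul_one]
          · rw [indicator_of_notMem hx, indicator_of_notMem hx, mul_zero]
        rw [e1, integral_indicator hS]
        have e3 : c * μ.real S = ∫ x in S, c ∂μ := by
          rw [setIntegral_const, smul_eq_mul, mul_comm]
        rw [e3]
        refine setIntegral_mono_ae_restrict (integrableOn_const (by exact hSf)) ?_ ?_
        · refine Measure.integrableOn_of_bounded (M := C * ‖v‖) hSf ?_ ?_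
          · exact ((measurable_lineDeriv hφ.continuous).comp
              (measurable_id.add_const _)).aestronglyMeasurable
          · exact Eventually.of_forall fun x => norm_lineDeriv_le_of_lipschitz ℝ hφ
        · exact (ae_restrict_iff' hS).2 (hc τ hτ)
      have h3 : Tendsto (fun z : ℝ => slope (fun τ => - G τ) τ z) (𝓝[>] τ)
          (𝓝 (-(∫ x, lineDeriv ℝ (fun x => φ (x + τ • v)) x v *
            S.indicator (fun _ => (1 : ℝ)) x ∂μ))) := by
        have h4 : Tendsto (fun z : ℝ => z - τ) (𝓝[>] τ) (𝓝[>] 0) := by
          refine tendsto_nhdsWithin_iff.2 ⟨?_, ?_⟩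
          · have : Tendsto (fun z : ℝ => z - τ) (𝓝 τ) (𝓝 (τ - τ)) :=
              (continuous_id.sub continuous_const).continuousAt
            rw [sub_self] at this
            exact this.mono_left nhdsWithin_le_nhds
          · filter_upwards [self_mem_nhdsWithin] with z hz
            exact mem_Ioi.2 (sub_pos.2 (mem_Ioi.1 hz))
        refine ((h1.comp h4).neg).congr fun z => ?_
        show -(∫ x, ((z - τ)⁻¹ • (φ (x + (z - τ) • v + τ • v) - φ (x + τ • v))) *
          S.indicator (fun _ => (1 : ℝ)) x ∂μ) = slope (fun τ => - G τ) τ z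
        have e1 : (fun x => ((z - τ)⁻¹ • (φ (x + (z - τ) • v + τ • v) - φ (x + τ • v))) *
            S.indicator (fun _ => (1 : ℝ)) x) = S.indicator
              (fun x => (z - τ)⁻¹ * (φ (x + z • v) - φ (x + τ • v))) := by
          funext x
          have e2 : x + (z - τ) • v + τ • v = x + z • v := by
            rw [add_assoc, ← add_smul, sub_add_cancel]
          rw [e2]
          by_cases hx : x ∈ S
          · rw [indicator_of_mem hx, indicator_of_mem hx, mul_one, smul_eq_mul]
          · rw [indicator_of_notMem hx, indicator_of_notMem hx, mul_zero]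
        rw [e1, integral_indicator hS, integral_const_mul, ← hdiff, slope_def_field]
        rw [inv_mul_eq_div]
        ring
      filter_upwards [h3.eventually (gt_mem_nhds (show -(∫ x, lineDeriv ℝ
        (fun x => φ (x + τ • v)) x v * S.indicator (fun _ => (1 : ℝ)) x ∂μ) < r by linarith))]
        with z hz
      exact hz)
    (right_mem_Icc.2 ht)
  have key' : - G t ≤ - (c * μ.real S) * t := key
  show c * t * μ.real S ≤ G t
  nlinarith

end Pool.Agent.L5helper73.SM
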